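import Pool.Agent.N508.CS.Main
import Pool.Agent.N508.CS.Stab
import Pool.Agent.N508.CS.Qd
import Pool.Agent.N508.CS.Hom
import Pool.Agent.N508.CS.Finite
import Pool.Agent.N508.CS.Top
import Pool.Agent.N508.CS.Tis
import Pool.Agent.N508.CS.Tic
import Pool.Agent.N508.CS.Ti
import Pool.Agent.N508.CS.Ct

/-!
# Graphs of groups whose edge groups lie in abelian subgroups with small intersections

`C` is any class of groups with the closure properties `ClosedE C` which contains the metabelian
groups and satisfies `AcylF C`: a finitely generated group that acts on a tree without inversions, such
that the pointwise stabilizers of long paths have bounded order, is in `C` if the vertex stabilizers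
are in `C`. All this is known for the class of the groups whose wreath products with finite groups
satisfy the K-theoretic Farrell-Jones conjecture with coefficients (`AcylF` is a theorem of Knopf); for
torsion-free groups `G` in this class and regular rings `R` the groups `K_n(RG)`, `n ≤ -1`, vanish.

Let `G` act on a tree with vertex stabilizers in `C`.

* (1) Let `𝓐 v` be sets of abelian subgroups of the stabilizers `G_v` (`TIF`), invariant under
  conjugation by `G`, such that different members of `𝓐 v` have at most `n` common elements, every
  edge stabilizer `G_v ∩ G_u` with more than `n` elements is contained in a member of `𝓐 v`, and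
  `N(A) / A` embeds in a group in `C` for the normalizers `N(A)` in `G_v` of the members `A`. Then `G`
  is in `C`.
* (2) Let the vertex stabilizers be commutative transitive (commutation is a transitive relation on
  the elements different from `1`), the edge stabilizers commutative, and let `N(A) / A` embed in a
  group in `C` for all maximal abelian subgroups `A ≠ 1` of the vertex stabilizers `G_v`. Then `G` is
  in `C`.

The members of `𝓐 v` need not be malnormal in `G_v`, and nothing is supposed about the relation between
the families at the two ends of an edge: an edge group may be contained in the member `A` of `𝓐 v` and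
in the member `B` of `𝓐 u`, where `A` and `B` have normalizers of quite different kind. For
commutative transitive groups in which `N(A) = A` (CSA groups) part (2) is known in this library. Among
the new vertex groups in (2) are the commutative transitive solvable groups, such as the solvable
Baumslag-Solitar groups `BS(1, m)`, `m ≠ 0, -1`, and the torsion-free groups in `C` which embed in
`PSL₂(F)` for a field `F` (here `N(A) / A` is abelian). So the fundamental groups of all graphs of
groups with such vertex groups and arbitrary abelian edge groups are in `C`; for instance all
amalgamated products and HNN extensions of groups `BS(1, m)`, `m ≠ 0, -1`, with abelian amalgamated or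
associated subgroups.

Outline of the proof. Call two edges at `v` equivalent if they are equal, or have more than `n` elements
in their stabilizers and these are contained in the same member of `𝓐 v`. By the theorem on trees of
cylinders (`Pool.Agent.N509`) it suffices that the stabilizers `K` of the cylinders are in `C`. `K` acts
on a subtree with vertex set `W`. For `w` in `W` let `A(w)` be the intersection of `K` with the member of
`𝓐 w` which contains the edge groups of the cylinder at `w`. Then the series `1 ≤ A(w) ≤ K_w` are
compatible, as the edge groups are contained in the abelian groups `A(w)` at both ends, and `K` is in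
`C` by the theorem on compatible series (`S_MAIN`). If there are small edge groups in the cylinder, all
its edge groups are small, and one uses the theorem on finite edge groups.
-/

set_option autoImplicit false

namespace Pool.Agent.Results.MP_28303a_al.AbelianFamilies

open Pool.Agent.Y110.FJ (ClosedE)
open Pool.Agent.N509.TX (AcylF)
open Pool.Agent.N508.CS

theorem result (C : ∀ (G : Type) [Group G], Prop) (hC : ClosedE C)
    (hM : ∀ (G : Type) [Group G], derivedSeries G 2 = ⊥ → C G) (hA : AcylF C)
    {G V : Type} [Group G] [MulAction G V] (T : SimpleGraph V) (hT : T.IsTree)
    (hact : ∀ (g : G) (u v : V), T.Adj u v → T.Adj (g • u) (g • v))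
    (hV : ∀ v : V, C ↥(MulAction.stabilizer G v)) :
    (∀ (n : ℕ) (𝓐 : V → Set (Subgroup G)), TIF C n T 𝓐 → C G) ∧ (CT C G T → C G) := by
  have h1 : ∀ (n : ℕ) (𝓐 : V → Set (Subgroup G)), TIF C n T 𝓐 → C G := fun n 𝓐 h =>
    t_ti t_tis (t_tic (t_main (t_qd t_stab) t_h t_f t_top) t_abel) C hC hM hA n G V T hT hact hV 𝓐 h
  refine ⟨h1, fun h => ?_⟩
  obtain ⟨𝓐, h𝓐⟩ := t_ct C G V T h
  exact h1 1 𝓐 h𝓐

end Pool.Agent.Results.MP_28303a_al.AbelianFamilies
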