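import Pool.Agent.N510.CT.NegK

set_option autoImplicit false

/-!
# Controlled classes in negative `K`-groups at the norm `3 / √2`

Let `R` be a ring, `G` a group and `m ≥ 0`. Every element of Bass's group `K_{-m}(R[G])` is a
difference of two classes of idempotent matrices over `R[ℤᵐ × G]`. The classes of the idempotents
whose module has a presentation which is controlled over `G` by an integral matrix of norm at most
`3 / √2` (the bound included) come from virtually cyclic subgroups. For every larger bound all
idempotents have such a presentation.
-/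

namespace Pool.Agent.Results.MP_28303a_al.CriticalControlled

open Pool.Agent.Y75.NK TH6.PF Pool.Agent.N510.CT

/-- `ControlledAt c (prj m G) e` (from `Pool.Agent.N510.CT.NegK`): the projective module of the
idempotent matrix `e` over `R[ℤᵐ × G]` has a presentation matrix `M` and there is a matrix `B` over
`ℤG`, of the same size, whose norm on `ℓ²(G)` is at most `c`, such that the supports of the entries
of `M` are mapped by the projection to `G` into the supports of the entries of `B`.
`kclass R m G e` is the class of `e` in `K_{-m}(R[G])`, and `vcSub R m G` is the subgroup generated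
by the images of the groups `K_{-m}(R[V])`, `V` a virtually cyclic subgroup of `G`, a cyclic one if
`G` is torsion-free. -/
theorem result :
    (∀ c : ℝ, 0 < c → c ^ 2 ≤ 9 / 2 → ∀ (R : Type) [Ring R] (G : GrpCat.{0}) (m : ℕ)
      (e : Idem (MonoidAlgebra R ((EF m).obj G))), ControlledAt c (prj m G) e →
        kclass R m G e ∈ vcSub R m G ∧
        (TF G → (∀ C : GrpCat.{0}, IsCyclic C → TF C →
          Subsingleton ((Kneg m).obj ((gr R).obj C))) → kclass R m G e = 0)) ∧
    ∀ c : ℝ, 9 / 2 < c ^ 2 → ∀ (R : Type) [Ring R] (G : GrpCat.{0}) (m : ℕ),
      (∀ e : Idem (MonoidAlgebra R ((EF m).obj G)), ControlledAt c (prj m G) e) ∧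
      ∀ x : (Kneg m).obj ((gr R).obj G), ∃ e f : Idem (MonoidAlgebra R ((EF m).obj G)),
        ControlledAt c (prj m G) e ∧ ControlledAt c (prj m G) f ∧
        x = kclass R m G e - kclass R m G f := by
  refine ⟨fun c hc0 hc R _ G m e he => ⟨mem_vcSub2 c hc0 hc R m G e he,
    fun hG hR => eq_zero2 c hc0 hc R m G hG hR e he⟩, fun c hc R _ G m => ⟨?_, fun x => ?_⟩⟩
  · exact above_negK c hc R m G
  · obtain ⟨e, f, h⟩ := kclass_generate R m G x
    exact ⟨e, f, above_negK c hc R m G e, above_negK c hc R m G f, h⟩

end Pool.Agent.Results.MP_28303a_al.CriticalControlled
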