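import Pool.Agent.N508.CS.Stab
import Pool.Agent.N508.CS.Qd
import Pool.Agent.N508.CS.Hom
import Pool.Agent.N508.CS.Top
import Pool.Agent.N508.CS.Cyf
import Pool.Agent.N508.CS.Qone
import Pool.Agent.N508.CS.Ney
import Pool.Agent.N508.CS.Ne

/-!
# Graphs of groups whose edge groups are equal or have small intersection

`C` is any class of groups with the closure properties `ClosedE C` which contains the metabelian
groups and satisfies `AcylF C`: a finitely generated group that acts on a tree without inversions, such
that the pointwise stabilizers of long paths have bounded order, is in `C` if the vertex stabilizers
are in `C`. All this is known for the class of the groups whose wreath products with finite groups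
satisfy the K-theoretic Farrell-Jones conjecture with coefficients (`AcylF` is a theorem of Knopf); for
torsion-free groups `G` in this class and regular rings `R` the groups `K_n(RG)`, `n ≤ -1`, vanish.

Let `G` act on a tree with vertex stabilizers `G_v` in `C`, such that the stabilizers of two edges at a
vertex are equal or have at most `n` common elements. For the edge stabilizers `E` with more than `n`
elements let the quotients `N(E) / E` embed in groups in `C`, where `N(E)` is the normalizer of `E` in
`G_v`, and let the groups `E ⟨x⟩` be in `C` for all `x` in `G` with `x E x⁻¹ = E` (`NEd`). Then `G` is in
`C`.

The edge groups are arbitrary otherwise. The last condition holds if `E` is virtually solvable, or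
hyperbolic, as the extensions of such groups by infinite cyclic groups satisfy the Farrell-Jones
conjecture. The theorem applies, for example, if

* the edge groups are normal in the vertex groups and those at one vertex are equal or have bounded
  intersections, for instance if the vertex groups are direct products and the edge groups are factors;
* the edge groups are full peripheral subgroups of relatively hyperbolic vertex groups (many edges may
  lead to the same peripheral subgroup, so that subgroups `E ⋊ F` with `F` free appear).

If all edge stabilizers at one vertex have bounded intersections this is Knopf's theorem.

Outline of the proof. By the theorem on trees of cylinders (`t_cyf`), applied to the equality of edge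
stabilizers, it suffices that the stabilizers `K` of the cylinders are in `C`. All edges of the cylinder
have the same stabilizer `E`, which is normal in `K`. The quotient `K / E` acts on a tree with trivial edge
stabilizers and the vertex stabilizers `K_w / E`, so it is in `C` (`t_q1`), and the extension criterion
reduces the claim for `K` to the groups `E ⟨x⟩`.
-/

set_option autoImplicit false

namespace Pool.Agent.Results.MP_28303a_al.EqualOrSmallIntersections

open Pool.Agent.Y110.FJ (ClosedE)
open Pool.Agent.N509.TX (AcylF)
open Pool.Agent.N508.CS

theorem result (C : ∀ (G : Type) [Group G], Prop) (hC : ClosedE C)
    (hM : ∀ (G : Type) [Group G], derivedSeries G 2 = ⊥ → C G) (hA : AcylF C)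
    {G V : Type} [Group G] [MulAction G V] (T : SimpleGraph V) (hT : T.IsTree)
    (hact : ∀ (g : G) (u v : V), T.Adj u v → T.Adj (g • u) (g • v))
    (hV : ∀ v : V, C ↥(MulAction.stabilizer G v)) (n : ℕ) (hE : NEd C n G T) : C G :=
  t_ne (t_ney (t_q1 (t_qd t_stab) t_h t_top)) t_cyf C hC hM hA n G V T hT hact hV hE

end Pool.Agent.Results.MP_28303a_al.EqualOrSmallIntersections
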