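import Pool.Agent.N508.CS.Tfr
import Pool.Agent.N508.CS.Afr
import Pool.Agent.N508.CS.Pst
import Pool.Agent.N508.CS.Ktr

/-!
# Extensions whose kernels act on trees and the Farrell-Jones conjecture

`C` is any class of groups with the closure properties `ClosedE C` which contains the metabelian groups
and the groups `F ⋊ Z`, `F` a free group (`FbC`). All this is published for the class of the groups whose
wreath products with finite groups satisfy the K-theoretic (or the L-theoretic) Farrell-Jones conjecture
with coefficients in additive categories (Wegner for solvable groups, Bestvina, Fujiwara and Wigglesworth
and Brück, Kielak and Wu for free-by-cyclic groups).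

Let `N` be a normal subgroup of `G` with `G / N` in `C`, and let `N` act on a tree `T` without
inversions. The action need not extend to an action of `G`. Suppose that there are subgroups
`1 = A_0(v) ≤ ... ≤ A_m(v) = N_v` of the vertex stabilizers `N_v`, such that

* `n A_i(v) n⁻¹ ≤ A_i(nv)` for `n` in `N`, and `A_i(v) ∩ N_u ≤ A_i(u)` for adjacent `u`, `v`;
* the groups `A_{i+1}(v) / A_i(v)`, `i < m`, are abelian;
* conjugation with elements of `G` maps elements of the groups `A_i(v)`, `v` in `V`, to elements of such
  groups.

Then `G` is in `C`.

For `m = 1` the only conditions are that the vertex stabilizers `N_v` are abelian and that conjugation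
with elements of `G` preserves the set of the elements of `N` which fix a vertex: this is so, for
example, if `N` is a generalized Baumslag-Solitar group which is not virtually solvable. In general the
automorphisms of such a group preserve no tree (for example those of `F × Z`, `F` free, given by
irreducible automorphisms of `F`). In the theorems on graphs of abelian groups (Gandini, Meinert and
Rüping) and in the theorems of this library on groups acting on trees, also in the relative ones, `G`
acts on the tree. For torsion-free nilpotent vertex groups of bounded class which are commensurable on
edges, one can take the upper central series; if `G` commensurates these groups, the conditions hold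
(`t_knl` in the helper file `N508/CS/Knl.lean`).

Outline of the proof. Let `P_i` be the subgroup generated by the groups `A_i(v)`. It is normal in
`G`. The group `N / P_i` acts on the quotient tree `T / P_i`, the subgroup `P_{i+1} / P_i` is generated by
its vertex stabilizers, which are the abelian groups `A_{i+1}(v) / A_i(v)`; so they embed in the
abelianization of `P_{i+1} / P_i`, and the commutator subgroup of `P_{i+1} / P_i` acts freely and is a
free group. So `G / P_i` is an extension with free kernel of an extension with abelian kernel of
`G / P_{i+1}`. And `N / P_m` is free.
-/

set_option autoImplicit false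

namespace Pool.Agent.Results.MP_28303a_al.KernelsOnTrees

open Pool.Agent.Y110.FJ (ClosedE)
open Pool.Agent.R684.FP (FbC)
open Pool.Agent.N508.CS

theorem result (C : ∀ (G : Type) [Group G], Prop) (hC : ClosedE C)
    (hM : ∀ (G : Type) [Group G], derivedSeries G 2 = ⊥ → C G) (hF : FbC C)
    {G V : Type} [Group G] (N : Subgroup G) [N.Normal] (hQ : C (G ⧸ N))
    [MulAction N V] (T : SimpleGraph V) (hT : T.IsTree)
    (hact : ∀ (g : N) (u v : V), T.Adj u v → T.Adj (g • u) (g • v))
    (hinv : ∀ (g : N) (u v : V), T.Adj u v → ¬ (g • u = v ∧ g • v = u))
    (m : ℕ) (A : ℕ → V → Subgroup N) (hA : KSer m N T A) : C G :=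
  t_ktr t_tfr t_afr t_pst C hC hM hF G V N T hT hact hinv m A hA hQ

end Pool.Agent.Results.MP_28303a_al.KernelsOnTrees
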